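import Pool.Agent.helper84.QI.Spec

set_option autoImplicit false

namespace Pool.Agent.QI

open Pointwise in
theorem PSL : PSL_stmt := by
  intro G _ Q I δ hne hconj hfin hcomm hQ hz hfi
  classical
  obtain ⟨j₀, hj₀⟩ := hne
  let C : Set (G ⧸ Q) := {c | ∀ j ∈ I, ∃ d : G, d * j = j * d ∧ c = (d : G ⧸ Q)}
  have hCfin : C.Finite := by
    refine ((hfin j₀ hj₀).image (fun d : G => (d : G ⧸ Q))).subset ?_
    intro c hc
    obtain ⟨d, hd, hcd⟩ := hc j₀ hj₀
    refine ⟨d, ?_, hcd.symm⟩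
    rw [SetLike.mem_coe, Subgroup.mem_centralizer_singleton_iff]
    exact hd
  have h1C : ((1 : G) : G ⧸ Q) ∈ C := fun j hj => ⟨1, by simp, rfl⟩
  have hδC : ∀ k ∈ I, δ k ∈ MulAction.stabilizer G C := by
    intro k hk
    rw [MulAction.mem_stabilizer_set' hCfin]
    intro c hc j hj
    obtain ⟨d, hd, rfl⟩ := hc ((δ k)⁻¹ * j * δ k) (hconj _ j hj)
    refine ⟨(δ k * d * (δ k)⁻¹) * δ j, ?_, ?_⟩
    · have h1 := hcomm j hj
      have h2 : (δ k * d * (δ k)⁻¹) * j = j * (δ k * d * (δ k)⁻¹) := by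
        have h3 : (δ k * d * (δ k)⁻¹) * j = δ k * (d * ((δ k)⁻¹ * j * δ k)) * (δ k)⁻¹ := by group
        rw [h3, hd]
        group
      rw [mul_assoc, h1, ← mul_assoc, h2, mul_assoc]
    · have h4 : δ k • ((d : G) : G ⧸ Q) = ((δ k * d : G) : G ⧸ Q) := rfl
      rw [h4, QuotientGroup.eq]
      have h5 : (δ k * d)⁻¹ * (δ k * d * (δ k)⁻¹ * δ j) = (δ k)⁻¹ * δ j := by group
      rw [h5]
      exact hQ k hk j hj
  have hIP : Subgroup.closure I ≤ MulAction.stabilizer G C := by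
    rw [Subgroup.closure_le]
    intro k hk
    obtain ⟨n, hn⟩ := hz k hk
    have h6 := (MulAction.stabilizer G C).zpow_mem (hδC k hk) n
    rw [SetLike.mem_coe, ← hn]
    exact h6
  have hP : (MulAction.stabilizer G C).FiniteIndex := Subgroup.finiteIndex_of_le hIP
  haveI : Finite (G ⧸ MulAction.stabilizer G C) := Subgroup.finite_quotient_of_finiteIndex
  haveI : Finite C := hCfin.to_subtype
  haveI : Finite (G ⧸ Q) := by
    refine Finite.of_surjective (fun x : (G ⧸ MulAction.stabilizer G C) × C => x.1.out • (x.2 : G ⧸ Q)) ?_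
    intro y
    obtain ⟨g, rfl⟩ := QuotientGroup.mk_surjective y
    have h7 : (((g : G ⧸ MulAction.stabilizer G C).out)⁻¹ * g) ∈ MulAction.stabilizer G C := by
      rw [← QuotientGroup.eq]
      exact Quotient.out_eq' _
    have h8 : (((g : G ⧸ MulAction.stabilizer G C).out)⁻¹ * g) • ((1 : G) : G ⧸ Q) ∈ C :=
      ((MulAction.mem_stabilizer_set).1 h7 _).2 h1C
    refine ⟨((g : G ⧸ MulAction.stabilizer G C), ⟨_, h8⟩), ?_⟩
    have h9 : ∀ u v : G, u • (v • ((1 : G) : G ⧸ Q)) = ((u * v * 1 : G) : G ⧸ Q) := by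
      intro u v
      rw [← mul_smul]
      rfl
    show ((g : G ⧸ MulAction.stabilizer G C).out) • ((((g : G ⧸ MulAction.stabilizer G C).out)⁻¹ * g) • ((1 : G) : G ⧸ Q)) = _
    rw [h9]
    simp
  exact Subgroup.finiteIndex_of_finite_quotient

end Pool.Agent.QI
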